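import Pool.Agent.Helper24.HW.Stmts

set_option autoImplicit false

/-! Identification of two vertices with the same label in a labelled rotation system. -/

namespace Pool.Agent.Helper63.HW

open Equiv Equiv.Perm Pool.Agent.Helper24.HW Pool.Agent.Helper24.HWPub Pool.Agent.Helper98.Gn

theorem M1 (hPTM : ST_PTM) : ST_M1 := by
  intro C _ M a b hab hn
  have hℓ : ∀ x, M.ℓ ((M.σ * swap a b) x) = M.ℓ x := by
    intro x
    rw [Perm.mul_apply, M.hℓ]
    by_cases hx : x = a
    · rw [hx, swap_apply_left, hab]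
    · by_cases hy : x = b
      · rw [hy, swap_apply_right, hab]
      · rw [swap_apply_of_ne_of_ne hx hy]
  refine ⟨hℓ, ?_, ?_, ?_, ?_⟩
  · have h1 : cyc (M.σ * swap a b) + 1 = cyc M.σ := cyc_merge hn
    have h2 : (M.σ * swap a b) * M.α = (M.σ * M.α) * swap (M.α⁻¹ a) (M.α⁻¹ b) := by
      rw [mul_assoc, swap_mul_eq_mul_swap, mul_assoc]
    have h3 : cyc (M.σ * M.α) ≤ cyc ((M.σ * swap a b) * M.α) + 1 := by
      rw [h2]
      exact cyc_le_swap _ _ _
    have h4 : (M.re (M.σ * swap a b) hℓ).chi =
        (cyc (M.σ * swap a b) : ℤ) - (Nat.card M.D / 2 : ℕ) + cyc ((M.σ * swap a b) * M.α) := rfl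
    rw [h4, LM.chi]
    omega
  · intro A
    have hs : ∀ x y, SameCycle.setoid M.σ x y → M.ℓ x = M.ℓ y := by
      intro x y hxy
      exact sc_induct (π := M.σ) (fun x y => M.ℓ x = M.ℓ y) (fun _ => rfl)
        (fun _ _ _ h1 h2 => h1.trans h2) (fun z => (M.hℓ z).symm) hxy
    exact hPTM M.D C (SameCycle.setoid M.σ) (SameCycle.setoid (M.σ * swap a b)) M.ℓ a b hs hab hn
      (sc_merge hn) A
  · intro x hx
    rw [Perm.mul_apply, swap_apply_of_ne_of_ne]
    · intro h
      exact hx (by rw [h])
    · intro h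
      exact hx (by rw [h, hab])
  · intro hC x y
    have h1 : ∀ u v, SameCycle (M.σ * swap a b) u v →
        Relation.EqvGen (fun u v => v = (M.σ * swap a b) u ∨ v = M.α u) u v := by
      intro u v huv
      exact sc_induct (π := M.σ * swap a b)
        (fun u v => Relation.EqvGen (fun u v => v = (M.σ * swap a b) u ∨ v = M.α u) u v)
        (fun _ => Relation.EqvGen.refl _) (fun _ _ _ h1 h2 => Relation.EqvGen.trans _ _ _ h1 h2)
        (fun z => Relation.EqvGen.rel _ _ (Or.inl rfl)) huv
    have h2 : Relation.EqvGen (fun u v => v = (M.σ * swap a b) u ∨ v = M.α u) x y := by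
      have h3 := hC x y
      induction h3 with
      | rel u v huv =>
        rcases huv with huv | huv
        · apply h1
          rw [huv]
          exact (sc_merge hn u (M.σ u)).2 (Or.inl (sc_step _ _))
        · exact Relation.EqvGen.rel _ _ (Or.inr huv)
      | refl u => exact Relation.EqvGen.refl _
      | symm u v _ ih => exact Relation.EqvGen.symm _ _ ih
      | trans u v w _ _ ih1 ih2 => exact Relation.EqvGen.trans _ _ _ ih1 ih2
    exact h2

end Pool.Agent.Helper63.HW
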